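import Pool.Agent.helper28.EG.Spec
import Pool.Agent.helper73.PM.WAC
import Pool.Agent.helper51.JS.FIN
import Pool.Agent.helper36.PP.PRB
import Pool.Agent.helper36.PP.LIFT
import Pool.Agent.helper21.PP.TRA

/-!
# p2x:FTA: finitely many attracting periodic points
-/

set_option autoImplicit false

open Complex Metric Set Filter Topology MeasureTheory
open WP (it)

noncomputable section

namespace EG

theorem FTA_of (hT : PPS.TRA_stmt) (hL : PPS.LIFT_stmt) : FTA_stmt := by
  intro f hf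
  have hCV : (PPS.CV f).Finite := (PPS.PRB f (by omega)).2.2.2.2.1
  let g : ℂ → ℂ := fun w => f.eval w
  let A : ℂ → Set ℂ := fun v => {q | (∃ k : ℕ, 0 < k ∧ g^[k] q = q) ∧ PPS.Att f q v}
  have hA : ∀ v, (A v).Subsingleton := by
    rintro v q ⟨⟨k, hk, h⟩, ha⟩ q' ⟨⟨k', hk', h'⟩, ha'⟩
    refine JS.FIN_per g q q' k k' hk hk' h h' ?_
    have h1 := Filter.Tendsto.sub ha' ha
    simp only [sub_zero] at h1
    refine h1.congr fun m => ?_
    show (g^[m] v - g^[m] q') - (g^[m] v - g^[m] q) = g^[m] q - g^[m] q'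
    ring
  have hfin : (⋃ v ∈ PPS.CV f, ⋃ q ∈ A v, {z : ℂ | ∃ j : ℕ, z = g^[j] q}).Finite := by
    refine hCV.biUnion fun v _ => ?_
    refine (hA v).finite.biUnion fun q hq => ?_
    obtain ⟨⟨k, hk, h⟩, -⟩ := hq
    exact JS.FIN_orb g q k hk h
  refine hfin.subset ?_
  intro p hp
  obtain ⟨v, hv, i, hi⟩ := PM.WAC hT hL f p hf hp
  obtain ⟨k, hk, hkp, -⟩ := hp
  have hper : Function.IsPeriodicPt g k p := hkp
  refine Set.mem_biUnion hv (Set.mem_biUnion (x := it f i p) ?_ ?_)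
  · refine ⟨⟨k, hk, ?_⟩, hi⟩
    exact hper.apply_iterate i
  · refine ⟨k * i - i, ?_⟩
    show p = g^[k * i - i] (g^[i] p)
    rw [← Function.iterate_add_apply, Nat.sub_add_cancel (Nat.le_mul_of_pos_left i hk)]
    exact (hper.mul_const i).symm

theorem FTA : FTA_stmt := FTA_of PPS.TRA PPS.LIFT

end EG
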